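import Pool.Agent.W492.Gon.Moore

set_option autoImplicit false

open MvPolynomial Pool.Agent.Helper553.Uni Pool.Agent.W492.Gon

namespace Pool.Agent.Results.MP_83f7cc_ag.LinesCharTwo

/-- Over every infinite perfect field `k` of characteristic two there is a smooth geometrically
irreducible projective surface `X` in the product of two planes, not rational, whose projection
`ψ` to the first plane is dominant of degree two, the minimal degree of a dominant rational map
from `X` to the plane, although the preimage of a general line under `ψ` is an irreducible curve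
with rational function field, so of gonality one. -/
theorem result (k : Type) [Field k] [Infinite k] [PerfectField k] [CharP k 2] :
    ∃ X : BiProj k 2 2, X.SmoothOfDim 2 ∧ X.GeomIrreducible ∧
      (∃ (K : Type) (_ : Field K) (_ : Algebra k K) (ξ : Coord 2 2 → K),
        IsFunctionField X K ξ) ∧
      (∀ (K : Type) [Field K] [Algebra k K] (ξ : Coord 2 2 → K), IsFunctionField X K ξ →
        ξ (Sum.inl 0) ≠ 0 ∧ AlgebraicIndependent k (firstProj ξ) ∧
        Module.rank (IntermediateField.adjoin k (Set.range (firstProj ξ))) K = 2 ∧
        IsMinDegree k K 2 2) ∧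
      ∃ H : MvPolynomial (Fin 3) k, H ≠ 0 ∧ H.IsHomogeneous 21 ∧
        ∀ a : Fin 3 → k, eval a H ≠ 0 →
          (∃ (F : Type) (_ : Field F) (_ : Algebra k F) (ξ : Coord 2 2 → F),
            IsFunctionField (preimage X a) F ξ) ∧
          ∀ (F : Type) [Field F] [Algebra k F] (ξ : Coord 2 2 → F),
            IsFunctionField (preimage X a) F ξ → IsMinDegree k F 1 1 := by
  have : PerfectRing k 2 := inferInstance
  refine ⟨surf k, surf_smooth, surf_irreducible, surf_ff, ?_, mooreP k, mooreP_ne_zero,
    mooreP_homogeneous, ?_⟩
  · intro K _ _ ξ h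
    exact ⟨surf_coord_ne_zero h _, surf_algInd h, surf_rank h, surf_min h⟩
  · intro a ha
    rw [eval_mooreP] at ha
    obtain ⟨b, hb⟩ : ∃ b : Fin 3 → k, a = p2 b := by
      have : ∀ i, ∃ c, c ^ 2 = a i := fun i => surjective_frobenius k 2 (a i)
      choose b hb using this
      exact ⟨b, funext fun i => (hb i).symm⟩
    subst hb
    rw [moore_p2] at ha
    have h2 : moore b ≠ 0 := fun h => ha (by rw [h]; simp)
    exact ⟨line_ff h2, fun F _ _ ξ h => line_min h2 h⟩

end Pool.Agent.Results.MP_83f7cc_ag.LinesCharTwo
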